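import Pool.Agent.BOX.StmtsG

/-!
# Row ENL of the squad BOX (problem MP_be01ff_an): the lower bound of the energy
-/

set_option autoImplicit false

namespace Pool.Agent.BOX.H65

open Set Filter Topology MeasureTheory
open Pool.Agent.BOX

/-- cosine or sine -/
noncomputable def trg (b : Bool) (t : ℝ) : ℝ := if b then Real.cos t else Real.sin t

/-- the coefficient of the one dimensional integral -/
noncomputable def dl (b : Bool) (m : ℤ) : ℝ := if m = 1 then 1 else if m = -1 then (if b then 1 else -1) else 0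

theorem icos (l : ℝ) (hl : 0 < l) (m : ℤ) :
    ∫ t in (0 : ℝ)..l, Real.cos (Real.pi * m / l * t) = if m = 0 then l else 0 := by
  by_cases hm : m = 0
  · rw [if_pos hm, hm]
    simp
  · rw [if_neg hm]
    have hc : Real.pi * m / l ≠ 0 :=
      div_ne_zero (mul_ne_zero Real.pi_ne_zero (Int.cast_ne_zero.mpr hm)) hl.ne'
    rw [intervalIntegral.integral_comp_mul_left (fun x => Real.cos x) hc, mul_zero, integral_cos]
    have h1 : Real.pi * m / l * l = m * Real.pi := by
      field_simp
    rw [h1, Real.sin_int_mul_pi, Real.sin_zero, sub_zero, smul_zero]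

theorem icos_ii (l : ℝ) (m : ℤ) :
    IntervalIntegrable (fun t : ℝ => Real.cos (Real.pi * m / l * t)) volume 0 l :=
  (Continuous.intervalIntegrable (by fun_prop) _ _)

theorem int1 (l : ℝ) (hl : 0 < l) (b : Bool) (m : ℤ) :
    ∫ t in Ioo (0 : ℝ) l, trg b (Real.pi * m / l * t) * trg b (Real.pi * ((1 : ℤ) : ℝ) / l * t) =
      l / 2 * dl b m := by
  rw [← integral_Ioc_eq_integral_Ioo, ← intervalIntegral.integral_of_le hl.le]
  have e1 : ∀ t : ℝ, Real.pi * m / l * t - Real.pi * ((1 : ℤ) : ℝ) / l * t =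
      Real.pi * ((m - 1 : ℤ) : ℝ) / l * t := by
    intro t
    push_cast
    ring
  have e2 : ∀ t : ℝ, Real.pi * m / l * t + Real.pi * ((1 : ℤ) : ℝ) / l * t =
      Real.pi * ((m + 1 : ℤ) : ℝ) / l * t := by
    intro t
    push_cast
    ring
  have I1 := icos l hl (m - 1)
  have I2 := icos l hl (m + 1)
  have hcc : ∀ x y : ℝ, Real.cos x * Real.cos y = (1 / 2) * Real.cos (x - y) + (1 / 2) * Real.cos (x + y) := by
    intro x y
    rw [Real.cos_sub, Real.cos_add]
    ring
  have hss : ∀ x y : ℝ, Real.sin x * Real.sin y = (1 / 2) * Real.cos (x - y) - (1 / 2) * Real.cos (x + y) := by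
    intro x y
    rw [Real.cos_sub, Real.cos_add]
    ring
  have h1 : (1 : ℤ) ≠ -1 := by decide
  cases b with
  | true =>
    have h : ∀ t : ℝ, trg true (Real.pi * m / l * t) * trg true (Real.pi * ((1 : ℤ) : ℝ) / l * t) =
        (1 / 2) * Real.cos (Real.pi * ((m - 1 : ℤ) : ℝ) / l * t) +
          (1 / 2) * Real.cos (Real.pi * ((m + 1 : ℤ) : ℝ) / l * t) := by
      intro t
      show Real.cos (Real.pi * m / l * t) * Real.cos (Real.pi * ((1 : ℤ) : ℝ) / l * t) = _
      rw [hcc, e1, e2]
    rw [intervalIntegral.integral_congr (fun t _ => h t),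
      intervalIntegral.integral_add ((icos_ii l _).const_mul _) ((icos_ii l _).const_mul _),
      intervalIntegral.integral_const_mul, intervalIntegral.integral_const_mul, I1, I2]
    unfold dl
    by_cases hm : m = 1
    · rw [if_pos (by omega), if_neg (by omega), if_pos hm]
      ring
    · by_cases hm2 : m = -1
      · rw [if_neg (by omega), if_pos (by omega), if_neg hm, if_pos hm2, if_pos rfl]
        ring
      · rw [if_neg (by omega), if_neg (by omega), if_neg hm, if_neg hm2]
        ring
  | false =>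
    have h : ∀ t : ℝ, trg false (Real.pi * m / l * t) * trg false (Real.pi * ((1 : ℤ) : ℝ) / l * t) =
        (1 / 2) * Real.cos (Real.pi * ((m - 1 : ℤ) : ℝ) / l * t) -
          (1 / 2) * Real.cos (Real.pi * ((m + 1 : ℤ) : ℝ) / l * t) := by
      intro t
      show Real.sin (Real.pi * m / l * t) * Real.sin (Real.pi * ((1 : ℤ) : ℝ) / l * t) = _
      rw [hss, e1, e2]
    rw [intervalIntegral.integral_congr (fun t _ => h t),
      intervalIntegral.integral_sub ((icos_ii l _).const_mul _) ((icos_ii l _).const_mul _),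
      intervalIntegral.integral_const_mul, intervalIntegral.integral_const_mul, I1, I2]
    unfold dl
    by_cases hm : m = 1
    · rw [if_pos (by omega), if_neg (by omega), if_pos hm]
      ring
    · by_cases hm2 : m = -1
      · rw [if_neg (by omega), if_pos (by omega), if_neg hm, if_pos hm2, if_neg (by decide)]
        ring
      · rw [if_neg (by omega), if_neg (by omega), if_neg hm, if_neg hm2]
        ring

section

variable {N : ℕ}

/-- the product of trigonometric functions -/
noncomputable def Phi (l : Fin N → ℝ) (τ : Fin N → Bool) (k : Fin N → ℤ) (x : Fin N → ℝ) : ℝ :=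
  ∏ j, trg (τ j) (Real.pi * k j / l j * x j)

theorem trg_cont (b : Bool) : Continuous (trg b) := by
  cases b with
  | true => exact Real.continuous_cos
  | false => exact Real.continuous_sin

theorem trg_abs (b : Bool) (t : ℝ) : |trg b t| ≤ 1 := by
  cases b with
  | true => exact Real.abs_cos_le_one t
  | false => exact Real.abs_sin_le_one t

theorem Phi_cont (l : Fin N → ℝ) (τ : Fin N → Bool) (k : Fin N → ℤ) : Continuous (Phi l τ k) := by
  unfold Phi
  refine continuous_finset_prod _ fun j _ => (trg_cont (τ j)).comp ?_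
  exact continuous_const.mul (continuous_apply j)

theorem Phi_abs (l : Fin N → ℝ) (τ : Fin N → Bool) (k : Fin N → ℤ) (x : Fin N → ℝ) :
    |Phi l τ k x| ≤ 1 := by
  unfold Phi
  rw [Finset.abs_prod]
  exact Finset.prod_le_one (fun j _ => abs_nonneg _) fun j _ => trg_abs _ _

theorem Box_eq (l : Fin N → ℝ) : Box l = univ.pi fun i => Ioo (0 : ℝ) (l i) := by
  ext x
  simp [Box, Set.mem_pi]

theorem Box_int (l : Fin N → ℝ) (hl : ∀ i, 0 < l i) (τ : Fin N → Bool) (k : Fin N → ℤ) :
    ∫ x in Box l, Phi l τ k x * Phi l τ (fun _ => 1) x = ∏ j, (l j / 2 * dl (τ j) (k j)) := by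
  rw [Box_eq, volume_pi, Measure.restrict_pi_pi]
  have h : ∀ x : Fin N → ℝ, Phi l τ k x * Phi l τ (fun _ => 1) x =
      ∏ j, (fun (j : Fin N) (t : ℝ) => trg (τ j) (Real.pi * k j / l j * t) *
        trg (τ j) (Real.pi * ((1 : ℤ) : ℝ) / l j * t)) j (x j) := by
    intro x
    unfold Phi
    rw [← Finset.prod_mul_distrib]
  have h2 := integral_fintype_prod_eq_prod (𝕜 := ℝ) (E := fun _ : Fin N => ℝ)
    (fun (j : Fin N) (t : ℝ) => trg (τ j) (Real.pi * k j / l j * t) *
        trg (τ j) (Real.pi * ((1 : ℤ) : ℝ) / l j * t))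
    (μ := fun i => volume.restrict (Ioo (0 : ℝ) (l i)))
  rw [integral_congr_ae (Eventually.of_forall h)]
  refine h2.trans ?_
  exact Finset.prod_congr rfl fun j _ => int1 (l j) (hl j) (τ j) (k j)

theorem Box_fin (l : Fin N → ℝ) : IsFiniteMeasure (volume.restrict (Box l)) := by
  refine ⟨?_⟩
  rw [Measure.restrict_apply_univ, Box_eq]
  refine lt_of_le_of_lt (measure_mono (Set.pi_mono fun i _ => Ioo_subset_Icc_self)) ?_
  exact (isCompact_univ_pi fun i => isCompact_Icc).measure_lt_top

theorem dl_one (b : Bool) : dl b 1 = 1 := by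
  unfold dl
  rw [if_pos rfl]

theorem prod_half (l : Fin N → ℝ) : ∏ j, (l j / 2) = (∏ j, l j) / 2 ^ N := by
  rw [Finset.prod_div_distrib, Finset.prod_const, Finset.card_univ, Fintype.card_fin]

/-- the core: a lower bound of the square integral -/
theorem enl_core (l : Fin N → ℝ) (hl : ∀ i, 0 < l i) (τ : Fin N → Bool)
    (a M : (Fin N → ℤ) → ℝ) (ha : ∀ k, |a k| ≤ M k) (hM : Summable M) (V : ℝ)
    (hA : ∑' k, a k * ∏ j, (l j / 2 * dl (τ j) (k j)) = (∏ j, l j) * V) :
    Integrable (fun x => (∑' k, a k * Phi l τ k x) ^ 2) (volume.restrict (Box l)) ∧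
      2 ^ N * (∏ j, l j) * V ^ 2 ≤ ∫ x in Box l, (∑' k, a k * Phi l τ k x) ^ 2 := by
  haveI := Box_fin l
  have hb : ∀ k x, ‖a k * Phi l τ k x‖ ≤ M k := by
    intro k x
    rw [norm_mul, Real.norm_eq_abs, Real.norm_eq_abs]
    calc |a k| * |Phi l τ k x| ≤ |a k| * 1 :=
          mul_le_mul_of_nonneg_left (Phi_abs l τ k x) (abs_nonneg _)
      _ ≤ M k := by rw [mul_one]; exact ha k
  obtain ⟨f, hf⟩ : ∃ f : (Fin N → ℝ) → ℝ, ∀ x, f x = ∑' k, a k * Phi l τ k x := ⟨_, fun _ => rfl⟩
  have hfc : Continuous f := by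
    have h1 : f = fun x => ∑' k, a k * Phi l τ k x := funext hf
    rw [h1]
    exact continuous_tsum (fun k => continuous_const.mul (Phi_cont l τ k)) hM hb
  obtain ⟨S, hS⟩ : ∃ S : ℝ, ∀ x, |f x| ≤ S := by
    refine ⟨∑' k, M k, fun x => ?_⟩
    rw [hf, ← Real.norm_eq_abs]
    exact tsum_of_norm_bounded hM.hasSum fun k => hb k x
  obtain ⟨s, hs⟩ : ∃ s : (Fin N → ℝ) → ℝ, s = Phi l τ (fun _ => 1) := ⟨_, rfl⟩
  have hsc : Continuous s := by
    rw [hs]
    exact Phi_cont _ _ _
  have hs1 : ∀ x, |s x| ≤ 1 := by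
    intro x
    rw [hs]
    exact Phi_abs _ _ _ _
  have i1 : Integrable (fun x => f x ^ 2) (volume.restrict (Box l)) := by
    refine Integrable.of_bound (hfc.pow 2).aestronglyMeasurable (S ^ 2) (Eventually.of_forall fun x => ?_)
    rw [norm_pow, Real.norm_eq_abs]
    exact pow_le_pow_left₀ (abs_nonneg _) (hS x) 2
  have i2 : Integrable (fun x => f x * s x) (volume.restrict (Box l)) := by
    refine Integrable.of_bound (hfc.mul hsc).aestronglyMeasurable (S * 1) (Eventually.of_forall fun x => ?_)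
    rw [norm_mul, Real.norm_eq_abs, Real.norm_eq_abs]
    exact mul_le_mul (hS x) (hs1 x) (abs_nonneg _) ((abs_nonneg _).trans (hS x))
  have i3 : Integrable (fun x => s x * s x) (volume.restrict (Box l)) := by
    refine Integrable.of_bound (hsc.mul hsc).aestronglyMeasurable (1 * 1) (Eventually.of_forall fun x => ?_)
    rw [norm_mul, Real.norm_eq_abs]
    exact mul_le_mul (hs1 x) (hs1 x) (abs_nonneg _) zero_le_one
  have hQ : ∫ x in Box l, s x * s x = (∏ j, l j) / 2 ^ N := by
    have h1 := Box_int l hl τ (fun _ => 1)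
    rw [hs, h1, ← prod_half]
    exact Finset.prod_congr rfl fun j _ => by rw [dl_one, mul_one]
  have hfs : ∫ x in Box l, f x * s x = (∏ j, l j) * V := by
    rw [← hA]
    have hint : ∀ k, Integrable (fun x => a k * Phi l τ k x * s x) (volume.restrict (Box l)) := by
      intro k
      refine Integrable.of_bound
        ((continuous_const.mul (Phi_cont l τ k)).mul hsc).aestronglyMeasurable (M k * 1)
        (Eventually.of_forall fun x => ?_)
      rw [norm_mul]
      refine mul_le_mul (hb k x) ?_ (norm_nonneg _) ((norm_nonneg _).trans (hb k x))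
      rw [Real.norm_eq_abs]
      exact hs1 x
    have hsum : Summable fun k => ∫ x, ‖a k * Phi l τ k x * s x‖ ∂(volume.restrict (Box l)) := by
      refine Summable.of_nonneg_of_le (fun k => integral_nonneg fun x => norm_nonneg _) (fun k => ?_)
        (hM.mul_right ((volume.restrict (Box l)).real univ))
      have h1 : ∫ x, ‖a k * Phi l τ k x * s x‖ ∂(volume.restrict (Box l)) ≤
          ∫ _x, M k ∂(volume.restrict (Box l)) := by
        refine integral_mono (hint k).norm (integrable_const _) fun x => ?_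
        show ‖a k * Phi l τ k x * s x‖ ≤ M k
        rw [norm_mul]
        calc ‖a k * Phi l τ k x‖ * ‖s x‖ ≤ M k * 1 := by
              refine mul_le_mul (hb k x) ?_ (norm_nonneg _) ((norm_nonneg _).trans (hb k x))
              rw [Real.norm_eq_abs]
              exact hs1 x
          _ = M k := mul_one _
      rw [integral_const, smul_eq_mul, mul_comm] at h1
      exact h1
    have h2 := (hasSum_integral_of_summable_integral_norm hint hsum).tsum_eq
    have h3 : ∫ x in Box l, f x * s x =
        ∫ x, ∑' k, a k * Phi l τ k x * s x ∂(volume.restrict (Box l)) := by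
      refine integral_congr_ae (Eventually.of_forall fun x => ?_)
      show f x * s x = ∑' k, a k * Phi l τ k x * s x
      rw [hf, tsum_mul_right]
    rw [h3, ← h2]
    refine tsum_congr fun k => ?_
    have h4 : ∀ x, a k * Phi l τ k x * s x = a k * (Phi l τ k x * Phi l τ (fun _ => 1) x) := by
      intro x
      rw [hs, mul_assoc]
    rw [integral_congr_ae (Eventually.of_forall h4), integral_const_mul, Box_int l hl]
  have e0 : (fun x => (∑' k, a k * Phi l τ k x) ^ 2) = fun x => f x ^ 2 := by
    funext x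
    rw [hf]
  rw [e0]
  refine ⟨i1, ?_⟩
  obtain ⟨lam, hlam⟩ : ∃ lam : ℝ, lam = 2 ^ N * V := ⟨_, rfl⟩
  have hle : ∫ x in Box l, (2 * lam * (f x * s x) - lam ^ 2 * (s x * s x)) ≤
      ∫ x in Box l, f x ^ 2 := by
    refine integral_mono ((i2.const_mul _).sub (i3.const_mul _)) i1 fun x => ?_
    show 2 * lam * (f x * s x) - lam ^ 2 * (s x * s x) ≤ f x ^ 2
    nlinarith [sq_nonneg (f x - lam * s x)]
  have hI : ∫ x in Box l, (2 * lam * (f x * s x) - lam ^ 2 * (s x * s x)) =
      2 * lam * ((∏ j, l j) * V) - lam ^ 2 * ((∏ j, l j) / 2 ^ N) := by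
    rw [integral_sub (i2.const_mul _) (i3.const_mul _), integral_const_mul, integral_const_mul,
      hfs, hQ]
  rw [hI, hlam] at hle
  have h2N : (2 : ℝ) ^ N ≠ 0 := pow_ne_zero _ two_ne_zero
  have h5 : 2 * (2 ^ N * V) * ((∏ j, l j) * V) - (2 ^ N * V) ^ 2 * ((∏ j, l j) / 2 ^ N) =
      2 ^ N * (∏ j, l j) * V ^ 2 := by
    field_simp
    ring
  rw [h5] at hle
  exact hle

/-- the sum over the vertices of the cube -/
theorem sumA (l : Fin N → ℝ) (τ : Fin N → Bool) (g : (Fin N → ℤ) → ℝ) (V : ℝ)
    (hg : ∀ k : Fin N → ℤ, (∀ i, k i = 1 ∨ k i = -1) → g k * ∏ j, dl (τ j) (k j) = V) :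
    ∑' k, g k * ∏ j, (l j / 2 * dl (τ j) (k j)) = (∏ j, l j) * V := by
  rw [tsum_eq_sum (s := Fintype.piFinset fun _ : Fin N => ({1, -1} : Finset ℤ))]
  · have h1 : ∀ k ∈ Fintype.piFinset (fun _ : Fin N => ({1, -1} : Finset ℤ)),
        g k * ∏ j, (l j / 2 * dl (τ j) (k j)) = (∏ j, l j) / 2 ^ N * V := by
      intro k hk
      rw [Fintype.mem_piFinset] at hk
      have hk' : ∀ i, k i = 1 ∨ k i = -1 := by
        intro i
        have h2 := hk i
        rw [Finset.mem_insert, Finset.mem_singleton] at h2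
        exact h2
      rw [Finset.prod_mul_distrib, prod_half, ← hg k hk']
      ring
    rw [Finset.sum_congr rfl h1, Finset.sum_const, nsmul_eq_mul, Fintype.card_piFinset]
    have h3 : ({1, -1} : Finset ℤ).card = 2 := by decide
    rw [Finset.prod_const, h3, Finset.card_univ, Fintype.card_fin]
    push_cast
    have h2N : (2 : ℝ) ^ N ≠ 0 := pow_ne_zero _ two_ne_zero
    field_simp
  · intro k hk
    rw [Fintype.mem_piFinset] at hk
    push Not at hk
    obtain ⟨i, hi⟩ := hk
    rw [Finset.mem_insert, Finset.mem_singleton, not_or] at hi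
    have h1 : dl (τ i) (k i) = 0 := by
      unfold dl
      rw [if_neg hi.1, if_neg hi.2]
    rw [Finset.prod_eq_zero (Finset.mem_univ i) (by rw [h1, mul_zero]), mul_zero]

end

theorem dl_false {m : ℤ} (h : m = 1 ∨ m = -1) : dl false m = (m : ℝ) := by
  unfold dl
  rcases h with h | h
  · rw [if_pos h, h]
    norm_num
  · rw [h, if_neg (by decide), if_pos rfl, if_neg (by decide)]
    norm_num

theorem dl_true {m : ℤ} (h : m = 1 ∨ m = -1) : dl true m = 1 := by
  unfold dl
  rcases h with h | h
  · rw [if_pos h]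
  · rw [h, if_neg (by decide), if_pos rfl, if_pos rfl]

/-- ENL -/
theorem enl : EnlStmt := by
  intro N l c T z d hS hN t ht
  have hl := hS.hl
  have ht0 : 0 < t := by linarith [hS.hT]
  have ht1 : 1 ≤ t := by linarith [hS.hT]
  have hpow : 0 < t ^ (-(1 / 2) : ℝ) := Real.rpow_pos_of_pos ht0 _
  have hpow1 : t ^ (-(1 / 2) : ℝ) ≤ 1 := Real.rpow_le_one_of_one_le_of_nonpos ht1 (by norm_num)
  have hd0 : ∀ k, 0 ≤ d k := by
    intro k
    have h1 := (norm_nonneg _).trans (hS.bd k t ht)
    exact nonneg_of_mul_nonneg_left h1 hpow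
  have hw2 : ∀ k : Fin N → ℤ, 1 ≤ w2 k := by
    intro k
    unfold w2
    have h1 : 0 ≤ ∑ i, |(k i : ℝ)| := Finset.sum_nonneg fun i _ => abs_nonneg _
    nlinarith
  obtain ⟨M, hMd⟩ : ∃ M : (Fin N → ℤ) → ℝ, ∀ k, M k = d k * w2 k := ⟨_, fun _ => rfl⟩
  have hM : Summable M := by
    have h1 : M = fun k => d k * w2 k := funext hMd
    rw [h1]
    exact hS.hd
  have hz : ∀ k, ‖z k t‖ ≤ M k := by
    intro k
    rw [hMd]
    calc ‖z k t‖ ≤ d k * t ^ (-(1 / 2) : ℝ) := hS.bd k t ht
      _ ≤ d k * 1 := mul_le_mul_of_nonneg_left hpow1 (hd0 k)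
      _ ≤ d k * w2 k := mul_le_mul_of_nonneg_left (hw2 k) (hd0 k)
  have hP : 0 < ∏ j, l j := Finset.prod_pos fun j _ => hl j
  obtain ⟨om, hom⟩ : ∃ om : ℝ, om = frq l (fun _ => 1) := ⟨_, rfl⟩
  have hsumpos : 0 < ∑ i, (Real.pi * ((1 : ℤ) : ℝ) / l i) ^ 2 := by
    haveI : Nonempty (Fin N) := ⟨⟨0, by omega⟩⟩
    refine Finset.sum_pos (fun i _ => ?_) Finset.univ_nonempty
    have h1 : 0 < Real.pi * ((1 : ℤ) : ℝ) / l i :=
      div_pos (mul_pos Real.pi_pos (by norm_num)) (hl i)
    positivity
  have hom2 : om ^ 2 = ∑ i, (Real.pi * ((1 : ℤ) : ℝ) / l i) ^ 2 := by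
    rw [hom]
    unfold frq
    rw [Real.sq_sqrt hsumpos.le]
  have hom0 : 0 < om := by
    rw [hom]
    exact Real.sqrt_pos.mpr hsumpos
  have hfk : ∀ k : Fin N → ℤ, (∀ i, k i = 1 ∨ k i = -1) → frq l k = om := by
    intro k hk
    rw [hom]
    unfold frq
    congr 1
    refine Finset.sum_congr rfl fun i _ => ?_
    rcases hk i with h | h
    · rw [h]
    · rw [h]
      push_cast
      ring
  have hsymre : ∀ k : Fin N → ℤ, (∀ i, k i = 1 ∨ k i = -1) →
      c k * (∏ i, (k i : ℝ)) * (z k t).re = c (fun _ => 1) * (z (fun _ => 1) t).re := by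
    intro k hk
    have h1 := congrArg Complex.re (hS.sym k hk t ht)
    rw [← Complex.ofReal_mul, Complex.re_ofReal_mul, Complex.re_ofReal_mul] at h1
    exact h1
  have hsymim : ∀ k : Fin N → ℤ, (∀ i, k i = 1 ∨ k i = -1) →
      c k * (∏ i, (k i : ℝ)) * (z k t).im = c (fun _ => 1) * (z (fun _ => 1) t).im := by
    intro k hk
    have h1 := congrArg Complex.im (hS.sym k hk t ht)
    rw [← Complex.ofReal_mul, Complex.im_ofReal_mul, Complex.im_ofReal_mul] at h1
    exact h1
  -- the part of u_t
  have E0 := enl_core l hl (fun _ => false) (fun k => (z k t).re * c k) M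
    (fun k => by
      rw [abs_mul]
      calc |(z k t).re| * |c k| ≤ ‖z k t‖ * 1 :=
            mul_le_mul (Complex.abs_re_le_norm _) (hS.hc k) (abs_nonneg _) (norm_nonneg _)
        _ ≤ M k := by rw [mul_one]; exact hz k) hM
    (c (fun _ => 1) * (z (fun _ => 1) t).re)
    (sumA l (fun _ => false) (fun k => (z k t).re * c k) _ (fun k hk => by
      have h1 : ∏ j, dl false (k j) = ∏ j, (k j : ℝ) :=
        Finset.prod_congr rfl fun j _ => dl_false (hk j)
      show (z k t).re * c k * ∏ j, dl false (k j) = _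
      rw [h1, ← hsymre k hk]
      ring))
  -- the part of the derivative in the direction i
  have Ei : ∀ i : Fin N, Integrable (fun x => (∑' k, (dsp l z k t * c k * (Real.pi * k i / l i)) *
        Phi l (fun j => decide (j = i)) k x) ^ 2) (volume.restrict (Box l)) ∧
      2 ^ N * (∏ j, l j) * (Real.pi / l i * (c (fun _ => 1) * (z (fun _ => 1) t).im / om)) ^ 2 ≤
        ∫ x in Box l, (∑' k, (dsp l z k t * c k * (Real.pi * k i / l i)) *
          Phi l (fun j => decide (j = i)) k x) ^ 2 := by
    intro i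
    refine enl_core l hl (fun j => decide (j = i))
      (fun k => dsp l z k t * c k * (Real.pi * k i / l i)) M ?_ hM _ (sumA l _ _ _ ?_)
    · intro k
      have h1 : |Real.pi * k i / l i| ≤ frq l k := by
        unfold frq
        rw [← Real.sqrt_sq_eq_abs]
        refine Real.sqrt_le_sqrt ?_
        exact Finset.single_le_sum (f := fun i => (Real.pi * k i / l i) ^ 2)
          (fun j _ => sq_nonneg _) (Finset.mem_univ i)
      have hf0 : 0 ≤ frq l k := Real.sqrt_nonneg _
      have h2 : |dsp l z k t * (Real.pi * k i / l i)| ≤ ‖z k t‖ := by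
        unfold dsp
        rcases eq_or_lt_of_le hf0 with h | h
        · rw [← h, div_zero, zero_mul, abs_zero]
          exact norm_nonneg _
        · rw [abs_mul, abs_div, abs_of_pos h]
          calc |(z k t).im| / frq l k * |Real.pi * k i / l i|
              ≤ |(z k t).im| / frq l k * frq l k :=
                mul_le_mul_of_nonneg_left h1 (div_nonneg (abs_nonneg _) hf0)
            _ = |(z k t).im| := div_mul_cancel₀ _ h.ne'
            _ ≤ ‖z k t‖ := Complex.abs_im_le_norm _
      have h3 : dsp l z k t * c k * (Real.pi * k i / l i) =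
          (dsp l z k t * (Real.pi * k i / l i)) * c k := by ring
      show |dsp l z k t * c k * (Real.pi * k i / l i)| ≤ M k
      rw [h3, abs_mul]
      calc |dsp l z k t * (Real.pi * k i / l i)| * |c k| ≤ ‖z k t‖ * 1 :=
            mul_le_mul h2 (hS.hc k) (abs_nonneg _) (norm_nonneg _)
        _ ≤ M k := by rw [mul_one]; exact hz k
    · intro k hk
      have h1 : (k i : ℝ) * ∏ j, dl (decide (j = i)) (k j) = ∏ j, (k j : ℝ) := by
        rw [← Finset.mul_prod_erase Finset.univ (fun j => dl (decide (j = i)) (k j))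
          (Finset.mem_univ i), ← Finset.mul_prod_erase Finset.univ (fun j => (k j : ℝ))
          (Finset.mem_univ i)]
        have h2 : dl (decide (i = i)) (k i) = 1 := by
          have h3 : decide (i = i) = true := by simp
          rw [h3]
          exact dl_true (hk i)
        have h4 : ∏ j ∈ Finset.univ.erase i, dl (decide (j = i)) (k j) =
            ∏ j ∈ Finset.univ.erase i, (k j : ℝ) := by
          refine Finset.prod_congr rfl fun j hj => ?_
          have h5 : decide (j = i) = false := decide_eq_false (Finset.ne_of_mem_erase hj)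
          rw [h5]
          exact dl_false (hk j)
        rw [h4]
        show (k i : ℝ) * (dl (decide (i = i)) (k i) * _) = _
        rw [h2, one_mul]
      show dsp l z k t * c k * (Real.pi * k i / l i) * ∏ j, dl (decide (j = i)) (k j) =
        Real.pi / l i * (c (fun _ => 1) * (z (fun _ => 1) t).im / om)
      have h6 : dsp l z k t * c k * (Real.pi * k i / l i) * ∏ j, dl (decide (j = i)) (k j) =
          dsp l z k t * c k * (Real.pi / l i) * ((k i : ℝ) * ∏ j, dl (decide (j = i)) (k j)) := by
        ring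
      rw [h6, h1]
      unfold dsp
      rw [hfk k hk, ← hsymim k hk]
      ring
  have e0 : ∀ x, ∑' k, (z k t).re * Sn l c k x =
      ∑' k, ((z k t).re * c k) * Phi l (fun _ => false) k x := by
    intro x
    refine tsum_congr fun k => ?_
    show (z k t).re * (c k * ∏ i, Real.sin (Real.pi * k i / l i * x i)) =
      (z k t).re * c k * ∏ i, Real.sin (Real.pi * k i / l i * x i)
    ring
  have ei : ∀ (i : Fin N) x, ∑' k, dsp l z k t * Sd l c i k x =
      ∑' k, (dsp l z k t * c k * (Real.pi * k i / l i)) * Phi l (fun j => decide (j = i)) k x := by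
    intro i x
    refine tsum_congr fun k => ?_
    unfold Sd Phi
    rw [← Finset.mul_prod_erase Finset.univ
      (fun j => trg (decide (j = i)) (Real.pi * k j / l j * x j)) (Finset.mem_univ i)]
    have h4 : ∏ j ∈ Finset.univ.erase i, trg (decide (j = i)) (Real.pi * k j / l j * x j) =
        ∏ j ∈ Finset.univ.erase i, Real.sin (Real.pi * k j / l j * x j) := by
      refine Finset.prod_congr rfl fun j hj => ?_
      have h5 : decide (j = i) = false := decide_eq_false (Finset.ne_of_mem_erase hj)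
      rw [h5]
      rfl
    have h7 : trg (decide (i = i)) (Real.pi * k i / l i * x i) =
        Real.cos (Real.pi * k i / l i * x i) := by
      have h3 : decide (i = i) = true := by simp
      rw [h3]
      rfl
    rw [h4]
    show _ = _ * (trg (decide (i = i)) (Real.pi * k i / l i * x i) * _)
    rw [h7]
    ring
  have hI : ∫ x in Box l, ((∑' k, (z k t).re * Sn l c k x) ^ 2 +
      ∑ i, (∑' k, dsp l z k t * Sd l c i k x) ^ 2) =
      (∫ x in Box l, (∑' k, ((z k t).re * c k) * Phi l (fun _ => false) k x) ^ 2) +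
      ∑ i, ∫ x in Box l, (∑' k, (dsp l z k t * c k * (Real.pi * k i / l i)) *
        Phi l (fun j => decide (j = i)) k x) ^ 2 := by
    have h1 : ∀ x, (∑' k, (z k t).re * Sn l c k x) ^ 2 +
        ∑ i, (∑' k, dsp l z k t * Sd l c i k x) ^ 2 =
        (∑' k, ((z k t).re * c k) * Phi l (fun _ => false) k x) ^ 2 +
        ∑ i, (∑' k, (dsp l z k t * c k * (Real.pi * k i / l i)) *
          Phi l (fun j => decide (j = i)) k x) ^ 2 := by
      intro x
      rw [e0]
      congr 1
      exact Finset.sum_congr rfl fun i _ => by rw [ei]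
    rw [integral_congr_ae (Eventually.of_forall h1),
      integral_add E0.1 (integrable_finset_sum _ fun i _ => (Ei i).1),
      integral_finsetSum _ fun i _ => (Ei i).1]
  rw [hI]
  have hlow := add_le_add E0.2 (Finset.sum_le_sum fun i (_ : i ∈ Finset.univ) => (Ei i).2)
  refine le_trans (le_of_eq ?_) hlow
  have hc1 : c (fun _ => 1) ^ 2 = 1 := by
    rw [← sq_abs, hS.c1, one_pow]
  have hsum : ∑ i, 2 ^ N * (∏ j, l j) *
      (Real.pi / l i * (c (fun _ => 1) * (z (fun _ => 1) t).im / om)) ^ 2 =
      2 ^ N * (∏ j, l j) * (z (fun _ => 1) t).im ^ 2 := by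
    have h1 : ∀ i : Fin N, 2 ^ N * (∏ j, l j) *
        (Real.pi / l i * (c (fun _ => 1) * (z (fun _ => 1) t).im / om)) ^ 2 =
        (2 ^ N * (∏ j, l j) * (c (fun _ => 1) ^ 2 * (z (fun _ => 1) t).im ^ 2 / om ^ 2)) *
          (Real.pi * ((1 : ℤ) : ℝ) / l i) ^ 2 := by
      intro i
      push_cast
      ring
    rw [Finset.sum_congr rfl fun i _ => h1 i, ← Finset.mul_sum, ← hom2, hc1, one_mul, mul_assoc,
      div_mul_cancel₀ _ (pow_ne_zero 2 hom0.ne')]
  rw [hsum, mul_pow, hc1, one_mul, ← mul_add]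
  congr 1
  rw [Complex.sq_norm, Complex.normSq_apply]
  ring

end Pool.Agent.BOX.H65
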