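import Pool.Agent.BOX.StmtsN

/-!
# Row MUN of the squad BOX (problem MP_be01ff_an): the cube of the sine series for N >= 3
-/

set_option autoImplicit false

namespace Pool.Agent.BOX.H65

open Set Filter Topology MeasureTheory
open Pool.Agent.BOX

section

variable {N : ℕ}

theorem mun_cis (θ : ℝ) :
    Complex.exp (Complex.I * (θ : ℂ)) = (Real.cos θ : ℂ) + Complex.I * (Real.sin θ : ℂ) := by
  rw [mul_comm, Complex.exp_mul_I, ← Complex.ofReal_cos, ← Complex.ofReal_sin]
  ring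

/-- one factor -/
noncomputable def mE (y : Fin N → ℝ) (S : Finset (Fin N)) (j : Fin N) (m : ℤ) : ℂ :=
  if j ∈ S then ((Real.cos ((m : ℝ) * y j) : ℝ) : ℂ)
  else Complex.exp (Complex.I * (((m : ℝ) * y j : ℝ) : ℂ))

/-- the product -/
noncomputable def mA (y : Fin N → ℝ) (S : Finset (Fin N)) (k : Fin N → ℤ) : ℂ :=
  ∏ j, mE y S j (k j)

theorem mE_norm (y : Fin N → ℝ) (S : Finset (Fin N)) (j : Fin N) (m : ℤ) : ‖mE y S j m‖ ≤ 1 := by
  unfold mE
  by_cases h : j ∈ S
  · rw [if_pos h, Complex.norm_real, Real.norm_eq_abs]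
    exact Real.abs_cos_le_one _
  · rw [if_neg h, mul_comm, Complex.norm_exp_ofReal_mul_I]

theorem mA_norm (y : Fin N → ℝ) (S : Finset (Fin N)) (k : Fin N → ℤ) : ‖mA y S k‖ ≤ 1 := by
  unfold mA
  rw [norm_prod]
  exact Finset.prod_le_one (fun j _ => norm_nonneg _) fun j _ => mE_norm _ _ _ _

theorem mA_add (y : Fin N → ℝ) (k m : Fin N → ℤ) :
    mA y ∅ (k + m) = mA y ∅ k * mA y ∅ m := by
  unfold mA
  rw [← Finset.prod_mul_distrib]
  refine Finset.prod_congr rfl fun j _ => ?_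
  unfold mE
  rw [if_neg (Finset.notMem_empty j), if_neg (Finset.notMem_empty j),
    if_neg (Finset.notMem_empty j), ← Complex.exp_add]
  congr 1
  rw [← mul_add, ← Complex.ofReal_add]
  congr 2
  rw [Pi.add_apply]
  push_cast
  ring

theorem flp_self' (i : Fin N) (k : Fin N → ℤ) : flp i k i = - k i := by
  show (if i = i then - k i else k i) = - k i
  rw [if_pos rfl]

theorem flp_ne' (i j : Fin N) (h : j ≠ i) (k : Fin N → ℤ) : flp i k j = k j := by
  show (if j = i then - k j else k j) = k j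
  rw [if_neg h]

theorem mA_insert (y : Fin N → ℝ) (S : Finset (Fin N)) (i : Fin N) (hi : i ∉ S)
    (k : Fin N → ℤ) : mA y (insert i S) k = (mA y S k + mA y S (flp i k)) / 2 := by
  unfold mA
  rw [← Finset.mul_prod_erase Finset.univ (fun j => mE y (insert i S) j (k j)) (Finset.mem_univ i),
    ← Finset.mul_prod_erase Finset.univ (fun j => mE y S j (k j)) (Finset.mem_univ i),
    ← Finset.mul_prod_erase Finset.univ (fun j => mE y S j (flp i k j)) (Finset.mem_univ i)]
  have h1 : ∏ j ∈ Finset.univ.erase i, mE y (insert i S) j (k j) =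
      ∏ j ∈ Finset.univ.erase i, mE y S j (k j) := by
    refine Finset.prod_congr rfl fun j hj => ?_
    have hne := Finset.ne_of_mem_erase hj
    unfold mE
    by_cases h : j ∈ S
    · rw [if_pos h, if_pos (Finset.mem_insert_of_mem h)]
    · rw [if_neg h, if_neg]
      intro h2
      rcases Finset.mem_insert.mp h2 with h3 | h3
      · exact hne h3
      · exact h h3
  have h2 : ∏ j ∈ Finset.univ.erase i, mE y S j (flp i k j) =
      ∏ j ∈ Finset.univ.erase i, mE y S j (k j) := by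
    refine Finset.prod_congr rfl fun j hj => ?_
    rw [flp_ne' i j (Finset.ne_of_mem_erase hj)]
  rw [h1, h2]
  have h3 : mE y (insert i S) i (k i) = (mE y S i (k i) + mE y S i (- k i)) / 2 := by
    unfold mE
    rw [if_pos (Finset.mem_insert_self i S), if_neg hi, if_neg hi, mun_cis, mun_cis]
    have h4 : ((- k i : ℤ) : ℝ) * y i = -((k i : ℝ) * y i) := by
      push_cast
      ring
    rw [h4, Real.cos_neg, Real.sin_neg]
    push_cast
    ring
  show mE y (insert i S) i (k i) * _ = (mE y S i (k i) * _ + mE y S i (flp i k i) * _) / 2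
  rw [h3, flp_self']
  ring

theorem mun_half (V A : (Fin N → ℤ) → ℂ) (hV : Summable fun k => ‖V k‖) (hA : ∀ k, ‖A k‖ ≤ 1)
    (i : Fin N) (hev : ∀ k, V (flp i k) = V k) :
    ∑' k, V k * A k = ∑' k, V k * ((A k + A (flp i k)) / 2) := by
  have s1 : Summable fun k => V k * A k := by
    refine Summable.of_norm_bounded hV fun k => ?_
    rw [norm_mul]
    exact mul_le_of_le_one_right (norm_nonneg _) (hA k)
  have s2 : Summable fun k => V k * A (flp i k) := by
    refine Summable.of_norm_bounded hV fun k => ?_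
    rw [norm_mul]
    exact mul_le_of_le_one_right (norm_nonneg _) (hA _)
  have e1 : ∑' k, V (flp i k) * A (flp i k) = ∑' k, V k * A k :=
    (flp i).toEquiv.tsum_eq (fun k => V k * A k)
  have e2 : ∑' k, V (flp i k) * A (flp i k) = ∑' k, V k * A (flp i k) :=
    tsum_congr fun k => by rw [hev]
  have e3 : ∑' k, V k * ((A k + A (flp i k)) / 2) =
      (∑' k, V k * A k + ∑' k, V k * A (flp i k)) / 2 := by
    rw [← s1.tsum_add s2, ← tsum_div_const]
    refine tsum_congr fun k => ?_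
    ring
  rw [e3, ← e2, e1]
  ring

theorem mun_even (y : Fin N → ℝ) (V : (Fin N → ℤ) → ℂ) (hV : Summable fun k => ‖V k‖)
    (hev : ∀ (i : Fin N) k, V (flp i k) = V k) (S : Finset (Fin N)) :
    ∑' k, V k * mA y ∅ k = ∑' k, V k * mA y S k := by
  induction S using Finset.induction_on with
  | empty => rfl
  | insert i S hi ih =>
    rw [ih, mun_half V (mA y S) hV (mA_norm y S) i (hev i)]
    exact tsum_congr fun k => by rw [mA_insert y S i hi]

theorem mun_cos (l : Fin N → ℝ) (x : Fin N → ℝ) (k : Fin N → ℤ) (hk : ∀ i, Odd (k i)) :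
    Sn l chi k x = ∏ i, Real.cos ((k i : ℝ) * (Real.pi * x i / l i - Real.pi / 2)) := by
  unfold Sn chi
  rw [← Finset.prod_mul_distrib]
  refine Finset.prod_congr rfl fun i _ => ?_
  have e1 : (k i : ℝ) * (Real.pi * x i / l i - Real.pi / 2) =
      Real.pi * k i / l i * x i - Real.pi * k i / 2 := by ring
  have e2 : Real.cos (Real.pi * k i / 2) = 0 := by
    obtain ⟨m, hm⟩ := hk i
    rw [Real.cos_eq_zero_iff]
    refine ⟨m, ?_⟩
    rw [hm]
    push_cast
    ring
  rw [e1, Real.cos_sub, e2]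
  ring

/-- MUN -/
theorem mun (t3a : T3aStmt) (t3s : T3sStmt) (evm : EvmStmt) : MunStmt := by
  intro N l v _ hv hev hod x
  obtain ⟨y, hy⟩ : ∃ y : Fin N → ℝ, ∀ i, y i = Real.pi * x i / l i - Real.pi / 2 :=
    ⟨_, fun _ => rfl⟩
  have hS : ∀ V : (Fin N → ℤ) → ℝ, (Summable fun k => |V k|) →
      (∀ (i : Fin N) k, V (flp i k) = V k) → (∀ k, V k ≠ 0 → ∀ i, Odd (k i)) →
      ((∑' k, V k * Sn l chi k x : ℝ) : ℂ) = ∑' k, (V k : ℂ) * mA y ∅ k := by
    intro V hV hVe hVo
    rw [mun_even y (fun k => (V k : ℂ)) (by simpa only [Complex.norm_real, Real.norm_eq_abs] using hV)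
      (fun i k => by rw [hVe]) Finset.univ, Complex.ofReal_tsum]
    refine tsum_congr fun k => ?_
    by_cases h0 : V k = 0
    · rw [h0]
      simp
    · have h1 := hVo k h0
      rw [mun_cos l x k h1]
      unfold mA mE
      rw [Complex.ofReal_mul, Complex.ofReal_prod]
      congr 1
      refine Finset.prod_congr rfl fun i _ => ?_
      rw [if_pos (Finset.mem_univ i), hy]
  have hF : Summable fun k => ‖((v k : ℝ) : ℂ)‖ := by
    simpa only [Complex.norm_real, Real.norm_eq_abs] using hv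
  obtain ⟨r, hr⟩ : ∃ r : (Fin N → ℤ) → ℝ, ∀ k,
      r k = ∑' h : (Fin N → ℤ) × (Fin N → ℤ), v h.1 * v h.2 * v (k - h.1 - h.2) := ⟨_, fun _ => rfl⟩
  have hT : ∀ k, T3 (fun q => (v q : ℂ)) (fun q => (v q : ℂ)) (fun q => (v q : ℂ)) k = (r k : ℂ) := by
    intro k
    rw [hr, Complex.ofReal_tsum]
    unfold T3
    refine tsum_congr fun h => ?_
    push_cast
    ring
  have hw : Wt (fun _ : Fin N → ℤ => (1 : ℝ)) := ⟨fun _ => le_rfl, fun _ _ => by norm_num⟩
  have hSm : Sm (fun _ : Fin N → ℤ => (1 : ℝ)) (fun q => ((v q : ℝ) : ℂ)) := by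
    unfold Sm
    simpa only [mul_one] using hF
  have hTs := (t3a (Fin N → ℤ) ℂ (fun _ => 1) _ _ _ hw hSm hSm hSm).2.1
  have hrs : Summable fun k => |r k| := by
    unfold Sm at hTs
    have h1 : (fun g : Fin N → ℤ => ‖T3 (fun q => ((v q : ℝ) : ℂ)) (fun q => ((v q : ℝ) : ℂ))
        (fun q => ((v q : ℝ) : ℂ)) g‖ * 1) = fun g => |r g| := by
      funext g
      rw [hT, Complex.norm_real, mul_one, Real.norm_eq_abs]
    rw [h1] at hTs
    exact hTs
  have hre : ∀ (i : Fin N) k, r (flp i k) = r k := by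
    intro i k
    have h1 := (t3s (Fin N → ℤ) ℂ (fun q => ((v q : ℝ) : ℂ)) (fun q => ((v q : ℝ) : ℂ))
      (fun q => ((v q : ℝ) : ℂ)) (fun q => ((v q : ℝ) : ℂ)) hF hF hF hF k).2.2.2.2 (flp i)
    have h2 : T3 (fun q => ((v (flp i q) : ℝ) : ℂ)) (fun q => ((v (flp i q) : ℝ) : ℂ))
        (fun q => ((v (flp i q) : ℝ) : ℂ)) k = (r k : ℂ) := by
      rw [← hT k]
      unfold T3
      refine tsum_congr fun h => ?_
      show ((v (flp i h.1) : ℝ) : ℂ) * ((v (flp i h.2) : ℝ) : ℂ) *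
        ((v (flp i (k - h.1 - h.2)) : ℝ) : ℂ) =
        ((v h.1 : ℝ) : ℂ) * ((v h.2 : ℝ) : ℂ) * ((v (k - h.1 - h.2) : ℝ) : ℂ)
      rw [hev, hev, hev]
    have h3 : (r (flp i k) : ℂ) = (r k : ℂ) := by
      rw [← hT (flp i k), ← h2]
      exact h1.symm
    exact_mod_cast h3
  have hro : ∀ k, r k ≠ 0 → ∀ i, Odd (k i) := by
    intro k hk i
    by_contra hcon
    apply hk
    rw [hr]
    have h1 : ∀ h : (Fin N → ℤ) × (Fin N → ℤ), v h.1 * v h.2 * v (k - h.1 - h.2) = 0 := by
      intro h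
      by_contra hne
      have h2 : v h.1 ≠ 0 := fun h0 => hne (by rw [h0]; ring)
      have h3 : v h.2 ≠ 0 := fun h0 => hne (by rw [h0]; ring)
      have h4 : v (k - h.1 - h.2) ≠ 0 := fun h0 => hne (by rw [h0]; ring)
      have o1 := hod _ h2 i
      have o2 := hod _ h3 i
      have o3 := hod _ h4 i
      apply hcon
      rw [Pi.sub_apply, Pi.sub_apply] at o3
      have h5 : k i = (k i - h.1 i - h.2 i) + (h.1 i + h.2 i) := by ring
      rw [h5]
      exact o3.add_even (o1.add_odd o2)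
    rw [tsum_congr h1, tsum_zero]
  have hE := evm (Fin N → ℤ) (mA y ∅) (fun q => ((v q : ℝ) : ℂ)) (fun q => ((v q : ℝ) : ℂ))
    (fun q => ((v q : ℝ) : ℂ)) (mA_add y) (mA_norm y ∅) hF hF hF
  have e1 := hS v hv hev hod
  have e2 := hS r hrs hre hro
  have e3 : ∑' k, T3 (fun q => ((v q : ℝ) : ℂ)) (fun q => ((v q : ℝ) : ℂ))
      (fun q => ((v q : ℝ) : ℂ)) k * mA y ∅ k = ∑' k, (r k : ℂ) * mA y ∅ k :=
    tsum_congr fun k => by rw [hT]
  have e4 : ∑' k, (T3 (fun q => (v q : ℂ)) (fun q => (v q : ℂ)) (fun q => (v q : ℂ)) k).re *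
      Sn l chi k x = ∑' k, r k * Sn l chi k x :=
    tsum_congr fun k => by rw [hT, Complex.ofReal_re]
  rw [e4]
  have h5 : ((∑' k, v k * Sn l chi k x : ℝ) : ℂ) ^ 3 =
      ((∑' k, r k * Sn l chi k x : ℝ) : ℂ) := by
    rw [e1, e2, ← e3, ← hE]
    ring
  exact_mod_cast h5

end

end Pool.Agent.BOX.H65
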