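import Pool.Agent.BOX.StmtsT

/-!
# Row MUT of the squad BOX (problem MP_be01ff_an): the cube of the sine series for N = 2
-/

set_option autoImplicit false

namespace Pool.Agent.BOX.H65

open Set Filter Topology MeasureTheory
open Pool.Agent.BOX

theorem mut_cis (θ : ℝ) :
    Complex.exp (Complex.I * (θ : ℂ)) = (Real.cos θ : ℂ) + Complex.I * (Real.sin θ : ℂ) := by
  rw [mul_comm, Complex.exp_mul_I, ← Complex.ofReal_cos, ← Complex.ofReal_sin]
  ring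

/-- the character -/
noncomputable def mutX (y : Fin 2 → ℝ) (k : Fin 2 → ℤ) : ℂ :=
  Complex.exp (Complex.I * (((k 0 : ℝ) * y 0 + (k 1 : ℝ) * y 1 : ℝ) : ℂ))

theorem mutX_norm (y : Fin 2 → ℝ) (k : Fin 2 → ℤ) : ‖mutX y k‖ ≤ 1 := by
  unfold mutX
  rw [mul_comm, Complex.norm_exp_ofReal_mul_I]

theorem mutX_add (y : Fin 2 → ℝ) (k m : Fin 2 → ℤ) : mutX y (k + m) = mutX y k * mutX y m := by
  unfold mutX
  rw [← Complex.exp_add]
  congr 1
  rw [← mul_add, ← Complex.ofReal_add]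
  congr 2
  rw [Pi.add_apply, Pi.add_apply]
  push_cast
  ring

theorem flp_self (i : Fin 2) (k : Fin 2 → ℤ) : flp i k i = - k i := by
  show (if i = i then - k i else k i) = - k i
  rw [if_pos rfl]

theorem flp_ne (i j : Fin 2) (h : j ≠ i) (k : Fin 2 → ℤ) : flp i k j = k j := by
  show (if j = i then - k j else k j) = k j
  rw [if_neg h]

theorem mut_half (V A : (Fin 2 → ℤ) → ℂ) (hV : Summable fun k => ‖V k‖) (hA : ∀ k, ‖A k‖ ≤ 1)
    (i : Fin 2) (hodd : ∀ k, V (flp i k) = - V k) :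
    ∑' k, V k * A k = ∑' k, V k * ((A k - A (flp i k)) / 2) := by
  have s1 : Summable fun k => V k * A k := by
    refine Summable.of_norm_bounded hV fun k => ?_
    rw [norm_mul]
    exact mul_le_of_le_one_right (norm_nonneg _) (hA k)
  have s2 : Summable fun k => V k * A (flp i k) := by
    refine Summable.of_norm_bounded hV fun k => ?_
    rw [norm_mul]
    exact mul_le_of_le_one_right (norm_nonneg _) (hA _)
  have e1 : ∑' k, V (flp i k) * A (flp i k) = ∑' k, V k * A k :=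
    (flp i).toEquiv.tsum_eq (fun k => V k * A k)
  have e2 : ∑' k, V (flp i k) * A (flp i k) = - ∑' k, V k * A (flp i k) := by
    rw [← tsum_neg]
    refine tsum_congr fun k => ?_
    rw [hodd]
    ring
  have e3 : ∑' k, V k * ((A k - A (flp i k)) / 2) =
      (∑' k, V k * A k - ∑' k, V k * A (flp i k)) / 2 := by
    rw [← s1.tsum_sub s2, ← tsum_div_const]
    refine tsum_congr fun k => ?_
    ring
  rw [e3]
  rw [e1] at e2
  linear_combination (-(1 : ℂ) / 2) * (-e2)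

theorem mut_odd (y : Fin 2 → ℝ) (V : (Fin 2 → ℤ) → ℂ) (hV : Summable fun k => ‖V k‖)
    (hodd : ∀ (i : Fin 2) k, V (flp i k) = - V k) :
    ∑' k, V k * mutX y k =
      ∑' k, V k * ((-(Real.sin ((k 0 : ℝ) * y 0) * Real.sin ((k 1 : ℝ) * y 1)) : ℝ) : ℂ) := by
  have h1 := mut_half V (mutX y) hV (mutX_norm y) 0 (hodd 0)
  have hA1 : ∀ k, ‖(mutX y k - mutX y (flp 0 k)) / 2‖ ≤ 1 := by
    intro k
    rw [norm_div]
    have h2 : ‖mutX y k - mutX y (flp 0 k)‖ ≤ 1 + 1 :=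
      (norm_sub_le _ _).trans (add_le_add (mutX_norm y k) (mutX_norm y _))
    have h3 : ‖(2 : ℂ)‖ = 2 := by norm_num
    rw [h3]
    linarith
  have h2 := mut_half V (fun k => (mutX y k - mutX y (flp 0 k)) / 2) hV hA1 1 (hodd 1)
  rw [h1, h2]
  refine tsum_congr fun k => ?_
  congr 1
  have a00 : flp (0 : Fin 2) k 0 = - k 0 := flp_self 0 k
  have a01 : flp (0 : Fin 2) k 1 = k 1 := flp_ne 0 1 (by decide) k
  have a10 : flp (1 : Fin 2) k 0 = k 0 := flp_ne 1 0 (by decide) k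
  have a11 : flp (1 : Fin 2) k 1 = - k 1 := flp_self 1 k
  have b0 : flp (0 : Fin 2) (flp (1 : Fin 2) k) 0 = - k 0 := by
    rw [flp_self, a10]
  have b1 : flp (0 : Fin 2) (flp (1 : Fin 2) k) 1 = - k 1 := by
    rw [flp_ne 0 1 (by decide), a11]
  show ((mutX y k - mutX y (flp 0 k)) / 2 -
    (mutX y (flp 1 k) - mutX y (flp 0 (flp 1 k))) / 2) / 2 = _
  unfold mutX
  rw [a00, a01, a10, a11, b0, b1, mut_cis, mut_cis, mut_cis, mut_cis]
  obtain ⟨a, ha⟩ : ∃ a : ℝ, a = (k 0 : ℝ) * y 0 := ⟨_, rfl⟩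
  obtain ⟨b, hb⟩ : ∃ b : ℝ, b = (k 1 : ℝ) * y 1 := ⟨_, rfl⟩
  have c1 : ((-k 0 : ℤ) : ℝ) * y 0 + (k 1 : ℝ) * y 1 = b - a := by
    rw [ha, hb]; push_cast; ring
  have c2 : (k 0 : ℝ) * y 0 + ((-k 1 : ℤ) : ℝ) * y 1 = a - b := by
    rw [ha, hb]; push_cast; ring
  have c3 : ((-k 0 : ℤ) : ℝ) * y 0 + ((-k 1 : ℤ) : ℝ) * y 1 = -(a + b) := by
    rw [ha, hb]; push_cast; ring
  rw [c1, c2, c3, ← ha, ← hb, Real.cos_neg, Real.sin_neg, Real.cos_add, Real.sin_add,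
    Real.cos_sub, Real.sin_sub, Real.cos_sub, Real.sin_sub]
  push_cast
  ring

/-- MUT -/
theorem mut2 (t3a : T3aStmt) (t3s : T3sStmt) (evm : EvmStmt) : MutStmt := by
  intro l v _ hv hodd x
  obtain ⟨y, hy⟩ : ∃ y : Fin 2 → ℝ, ∀ i, y i = Real.pi * x i / l i := ⟨_, fun _ => rfl⟩
  have hSn : ∀ k, Sn l (fun _ => -1) k x =
      -(Real.sin ((k 0 : ℝ) * y 0) * Real.sin ((k 1 : ℝ) * y 1)) := by
    intro k
    unfold Sn
    rw [Fin.prod_univ_two, hy, hy]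
    have e0 : Real.pi * (k 0 : ℝ) / l 0 * x 0 = (k 0 : ℝ) * (Real.pi * x 0 / l 0) := by ring
    have e1 : Real.pi * (k 1 : ℝ) / l 1 * x 1 = (k 1 : ℝ) * (Real.pi * x 1 / l 1) := by ring
    rw [e0, e1]
    ring
  have hS : ∀ V : (Fin 2 → ℤ) → ℝ, (Summable fun k => |V k|) →
      (∀ (i : Fin 2) k, V (flp i k) = - V k) →
      ((∑' k, V k * Sn l (fun _ => -1) k x : ℝ) : ℂ) = ∑' k, (V k : ℂ) * mutX y k := by
    intro V hV hVo
    rw [mut_odd y (fun k => (V k : ℂ)) (by simpa only [Complex.norm_real, Real.norm_eq_abs] using hV)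
      (fun i k => by rw [hVo]; push_cast; ring), Complex.ofReal_tsum]
    refine tsum_congr fun k => ?_
    rw [hSn]
    push_cast
    ring
  have hF : Summable fun k => ‖((v k : ℝ) : ℂ)‖ := by
    simpa only [Complex.norm_real, Real.norm_eq_abs] using hv
  obtain ⟨r, hr⟩ : ∃ r : (Fin 2 → ℤ) → ℝ, ∀ k,
      r k = ∑' h : (Fin 2 → ℤ) × (Fin 2 → ℤ), v h.1 * v h.2 * v (k - h.1 - h.2) := ⟨_, fun _ => rfl⟩
  have hT : ∀ k, T3 (fun q => (v q : ℂ)) (fun q => (v q : ℂ)) (fun q => (v q : ℂ)) k = (r k : ℂ) := by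
    intro k
    rw [hr, Complex.ofReal_tsum]
    unfold T3
    refine tsum_congr fun h => ?_
    push_cast
    ring
  have hw : Wt (fun _ : Fin 2 → ℤ => (1 : ℝ)) := ⟨fun _ => le_rfl, fun _ _ => by norm_num⟩
  have hSm : Sm (fun _ : Fin 2 → ℤ => (1 : ℝ)) (fun q => ((v q : ℝ) : ℂ)) := by
    unfold Sm
    simpa only [mul_one] using hF
  have hTs := (t3a (Fin 2 → ℤ) ℂ (fun _ => 1) _ _ _ hw hSm hSm hSm).2.1
  have hrs : Summable fun k => |r k| := by
    unfold Sm at hTs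
    have h1 : (fun g : Fin 2 → ℤ => ‖T3 (fun q => ((v q : ℝ) : ℂ)) (fun q => ((v q : ℝ) : ℂ))
        (fun q => ((v q : ℝ) : ℂ)) g‖ * 1) = fun g => |r g| := by
      funext g
      rw [hT, Complex.norm_real, mul_one, Real.norm_eq_abs]
    rw [h1] at hTs
    exact hTs
  have hro : ∀ (i : Fin 2) k, r (flp i k) = - r k := by
    intro i k
    have h1 := (t3s (Fin 2 → ℤ) ℂ (fun q => ((v q : ℝ) : ℂ)) (fun q => ((v q : ℝ) : ℂ))
      (fun q => ((v q : ℝ) : ℂ)) (fun q => ((v q : ℝ) : ℂ)) hF hF hF hF k).2.2.2.2 (flp i)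
    have h2 : T3 (fun q => ((v (flp i q) : ℝ) : ℂ)) (fun q => ((v (flp i q) : ℝ) : ℂ))
        (fun q => ((v (flp i q) : ℝ) : ℂ)) k = - (r k : ℂ) := by
      rw [← hT k]
      unfold T3
      rw [← tsum_neg]
      refine tsum_congr fun h => ?_
      show ((v (flp i h.1) : ℝ) : ℂ) * ((v (flp i h.2) : ℝ) : ℂ) *
        ((v (flp i (k - h.1 - h.2)) : ℝ) : ℂ) =
        -(((v h.1 : ℝ) : ℂ) * ((v h.2 : ℝ) : ℂ) * ((v (k - h.1 - h.2) : ℝ) : ℂ))
      rw [hodd, hodd, hodd]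
      push_cast
      ring
    have h3 : (r (flp i k) : ℂ) = - (r k : ℂ) := by
      rw [← hT (flp i k), ← h2]
      exact h1.symm
    exact_mod_cast h3
  have hE := evm (Fin 2 → ℤ) (mutX y) (fun q => ((v q : ℝ) : ℂ)) (fun q => ((v q : ℝ) : ℂ))
    (fun q => ((v q : ℝ) : ℂ)) (mutX_add y) (mutX_norm y) hF hF hF
  have e1 := hS v hv (fun i k => hodd i k)
  have e2 := hS r hrs hro
  have e3 : ∑' k, T3 (fun q => ((v q : ℝ) : ℂ)) (fun q => ((v q : ℝ) : ℂ))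
      (fun q => ((v q : ℝ) : ℂ)) k * mutX y k = ∑' k, (r k : ℂ) * mutX y k :=
    tsum_congr fun k => by rw [hT]
  have e4 : ∑' k, (T3 (fun q => (v q : ℂ)) (fun q => (v q : ℂ)) (fun q => (v q : ℂ)) k).re *
      Sn l (fun _ => -1) k x = ∑' k, r k * Sn l (fun _ => -1) k x :=
    tsum_congr fun k => by rw [hT, Complex.ofReal_re]
  rw [e4]
  have h5 : ((∑' k, v k * Sn l (fun _ => -1) k x : ℝ) : ℂ) ^ 3 =
      ((∑' k, r k * Sn l (fun _ => -1) k x : ℝ) : ℂ) := by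
    rw [e1, e2, ← e3, ← hE]
    ring
  exact_mod_cast h5

end Pool.Agent.BOX.H65
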